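import Mathlib

/-!
# Abstract weight and rank lemma (koethe.md, sections 2 and 3)

`W` a vector space over the field `F`, `τ` an endomorphism, `O` a finite-dimensional subspace
such that `W` is the sum of the `τ^i O`.  An endomorphism `x` commuting with `τ` has
weight `≤ n` if there is a finite-dimensional `Φ` with `finrank Φ ≤ n`,
`x O ≤ O + Φ` and `Φ ≤ τ (O + Φ)`.
-/

open Polynomial Module

namespace KO

variable {F W : Type*} [Field F] [AddCommGroup W] [Module F W]

/-- weight at most `n` of the endomorphism `x`. -/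
def WtLe (O : Submodule F W) (τ x : Module.End F W) (n : ℕ) : Prop :=
  ∃ Φ : Submodule F W, FiniteDimensional F Φ ∧ finrank F Φ ≤ n ∧
    O.map x ≤ O ⊔ Φ ∧ Φ ≤ (O ⊔ Φ).map τ

theorem WtLe.mono {O : Submodule F W} {τ x : Module.End F W} {n m : ℕ}
    (h : WtLe O τ x n) (hnm : n ≤ m) : WtLe O τ x m := by
  obtain ⟨Φ, h1, h2, h3, h4⟩ := h
  exact ⟨Φ, h1, h2.trans hnm, h3, h4⟩

theorem WtLe.add {O : Submodule F W} {τ x y : Module.End F W} {n m : ℕ}
    (hx : WtLe O τ x n) (hy : WtLe O τ y m) : WtLe O τ (x + y) (n + m) := by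
  obtain ⟨Φ, h1, h2, h3, h4⟩ := hx
  obtain ⟨Ψ, k1, k2, k3, k4⟩ := hy
  refine ⟨Φ ⊔ Ψ, inferInstance, ?_, ?_, ?_⟩
  · have := Submodule.finrank_add_le_finrank_add_finrank Φ Ψ
    omega
  · rw [Submodule.map_le_iff_le_comap]
    intro v hv
    rw [Submodule.mem_comap, LinearMap.add_apply]
    have a1 : x v ∈ O ⊔ Φ := h3 (Submodule.mem_map_of_mem hv)
    have a2 : y v ∈ O ⊔ Ψ := k3 (Submodule.mem_map_of_mem hv)
    refine Submodule.add_mem _ ?_ ?_
    · exact (sup_le_sup_left le_sup_left O : O ⊔ Φ ≤ O ⊔ (Φ ⊔ Ψ)) a1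
    · exact (sup_le_sup_left le_sup_right O : O ⊔ Ψ ≤ O ⊔ (Φ ⊔ Ψ)) a2
  · refine sup_le (h4.trans ?_) (k4.trans ?_)
    · exact Submodule.map_mono (sup_le_sup_left le_sup_left O)
    · exact Submodule.map_mono (sup_le_sup_left le_sup_right O)

theorem WtLe.smul {O : Submodule F W} {τ x : Module.End F W} {n : ℕ}
    (hx : WtLe O τ x n) (c : F) : WtLe O τ (c • x) n := by
  obtain ⟨Φ, h1, h2, h3, h4⟩ := hx
  refine ⟨Φ, h1, h2, ?_, h4⟩
  rw [Submodule.map_le_iff_le_comap]
  intro v hv
  rw [Submodule.mem_comap, LinearMap.smul_apply]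
  exact Submodule.smul_mem _ _ (h3 (Submodule.mem_map_of_mem hv))

/-- `x` acts first, then `y` -/
theorem WtLe.comp {O : Submodule F W} {τ x y : Module.End F W} {n m : ℕ}
    (hyτ : ∀ v, y (τ v) = τ (y v))
    (hx : WtLe O τ x n) (hy : WtLe O τ y m) : WtLe O τ (y * x) (n + m) := by
  obtain ⟨Φ, h1, h2, h3, h4⟩ := hx
  obtain ⟨Ψ, k1, k2, k3, k4⟩ := hy
  refine ⟨Ψ ⊔ Φ.map y, inferInstance, ?_, ?_, ?_⟩
  · have := Submodule.finrank_add_le_finrank_add_finrank Ψ (Φ.map y)
    have h5 : finrank F (Φ.map y) ≤ finrank F Φ := Submodule.finrank_map_le y Φ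
    omega
  · rw [Submodule.map_le_iff_le_comap]
    intro v hv
    rw [Submodule.mem_comap, Module.End.mul_apply]
    have a1 : x v ∈ O ⊔ Φ := h3 (Submodule.mem_map_of_mem hv)
    obtain ⟨o, ho, f, hf, hof⟩ := Submodule.mem_sup.1 a1
    rw [← hof, map_add]
    have a2 : y o ∈ O ⊔ Ψ := k3 (Submodule.mem_map_of_mem ho)
    refine Submodule.add_mem _ ?_ ?_
    · exact (sup_le_sup_left le_sup_left O : O ⊔ Ψ ≤ O ⊔ (Ψ ⊔ Φ.map y)) a2
    · exact Submodule.mem_sup_right (Submodule.mem_sup_right (Submodule.mem_map_of_mem hf))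
  · refine sup_le (k4.trans ?_) ?_
    · exact Submodule.map_mono (sup_le_sup_left le_sup_left O)
    · rintro _ ⟨f, hf, rfl⟩
      obtain ⟨z, hz, hzf⟩ := h4 hf
      obtain ⟨o, ho, f', hf', hof⟩ := Submodule.mem_sup.1 hz
      refine ⟨y z, ?_, ?_⟩
      · rw [← hof, map_add]
        have a2 : y o ∈ O ⊔ Ψ := k3 (Submodule.mem_map_of_mem ho)
        refine Submodule.add_mem _ ?_ ?_
        · exact (sup_le_sup_left le_sup_left O : O ⊔ Ψ ≤ O ⊔ (Ψ ⊔ Φ.map y)) a2
        · exact Submodule.mem_sup_right (Submodule.mem_sup_right (Submodule.mem_map_of_mem hf'))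
      · rw [← hyτ, hzf]

/-- The rank lemma, general index type. -/
theorem rank_lemma_fintype {ι : Type} [Fintype ι] {O : Submodule F W} [FiniteDimensional F O]
    {τ x : Module.End F W} {n : ℕ}
    (hxτ : ∀ v, x (τ v) = τ (x v))
    (hO : ∀ v : W, ∃ I : ℕ, v ∈ ⨆ i ∈ Finset.range (I + 1), O.map (τ ^ i))
    (hx : WtLe O τ x n) (hι : n < Fintype.card ι) (w : ι → W) :
    ∃ p : ι → F[X], p ≠ 0 ∧ ∑ j, aeval x (p j) (w j) = 0 := by
  obtain ⟨Φ, hΦfd, hΦn, hA, hB⟩ := hx
  let modX : Module F[X] W := Module.compHom W (aeval (R := F) x : F[X] →ₐ[F] Module.End F W).toRingHom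
  have smul_def : ∀ (p : F[X]) (v : W), p • v = aeval x p v := fun _ _ => rfl
  have C_smul : ∀ (c : F) (v : W), (C c : F[X]) • v = c • v := by
    intro c v
    rw [smul_def, aeval_C]
    rfl
  have X_smul : ∀ (v : W), (X : F[X]) • v = x v := by
    intro v
    rw [smul_def, aeval_X]
  -- τ is F[X]-linear
  have hcomm : ∀ (p : F[X]) (v : W), τ (p • v) = p • τ v := by
    intro p v
    induction p using Polynomial.induction_on' with
    | add p q hp hq => rw [add_smul, map_add, hp, hq, add_smul]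
    | monomial k a =>
      rw [← C_mul_X_pow_eq_monomial, mul_smul, mul_smul, C_smul, C_smul, map_smul]
      congr 1
      induction k with
      | zero => simp
      | succ k ih => rw [pow_succ', mul_smul, mul_smul, X_smul, X_smul, ← hxτ, ih]
  let τX : W →ₗ[F[X]] W :=
    { toFun := τ
      map_add' := fun a b => map_add τ a b
      map_smul' := fun p v => hcomm p v }
  have τX_apply : ∀ v, τX v = τ v := fun _ => rfl
  have τXpow : ∀ (i : ℕ) (v : W), (τX ^ i) v = (τ ^ i) v := by
    intro i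
    induction i with
    | zero => intro v; simp
    | succ i ih => intro v; rw [pow_succ, pow_succ, Module.End.mul_apply, Module.End.mul_apply, τX_apply, ih]
  set Y : Submodule F[X] W := Submodule.span F[X] (Φ : Set W) with hY
  have hΦY : ∀ f ∈ Φ, f ∈ Y := fun f hf => Submodule.subset_span hf
  have Csm : ∀ (N : Submodule F[X] W) (c : F) (v : W), v ∈ N → c • v ∈ N := by
    intro N c v hv
    rw [← C_smul]
    exact N.smul_mem _ hv
  -- step 1
  have step1 : ∀ o ∈ O, ∃ p : F[X], p ≠ 0 ∧ p • o ∈ Y := by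
    intro o ho
    have h1 : ∀ i : ℕ, ∃ o' ∈ O, (X ^ i : F[X]) • o - o' ∈ Y := by
      intro i
      induction i with
      | zero => exact ⟨o, ho, by simp⟩
      | succ i ih =>
        obtain ⟨o', ho', h⟩ := ih
        have a1 : x o' ∈ O ⊔ Φ := hA (Submodule.mem_map_of_mem ho')
        obtain ⟨o'', ho'', f, hf, hof⟩ := Submodule.mem_sup.1 a1
        refine ⟨o'', ho'', ?_⟩
        have e : (X ^ (i + 1) : F[X]) • o - o'' = (X : F[X]) • ((X ^ i : F[X]) • o - o') + f := by
          rw [smul_sub, ← mul_smul, ← pow_succ', X_smul o', ← hof]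
          abel
        rw [e]
        exact Y.add_mem (Y.smul_mem _ h) (hΦY f hf)
    choose o' ho' hoY using h1
    have h2 : ¬ LinearIndependent F (fun i : Fin (finrank F O + 1) => (⟨o' i, ho' i⟩ : O)) := by
      intro h
      have := h.fintype_card_le_finrank
      simp at this
    rw [Fintype.not_linearIndependent_iff] at h2
    obtain ⟨g, hg, i0, hi0⟩ := h2
    refine ⟨∑ i, C (g i) * X ^ (i : ℕ), ?_, ?_⟩
    · intro h
      apply hi0
      have := congrArg (fun q => coeff q (i0 : ℕ)) h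
      simp only [finsetSum_coeff, coeff_C_mul, coeff_X_pow, coeff_zero] at this
      rw [Finset.sum_eq_single i0] at this
      · simpa using this
      · intro b _ hb
        rw [if_neg]
        · simp
        · intro h; apply hb; exact Fin.ext h.symm
      · simp
    · have hg' : ∑ i : Fin (finrank F O + 1), g i • o' i = 0 := by
        have := congrArg (Subtype.val) hg
        simpa using this
      have e : (∑ i : Fin (finrank F O + 1), C (g i) * X ^ (i : ℕ) : F[X]) • o
          = ∑ i : Fin (finrank F O + 1), g i • ((X ^ (i : ℕ) : F[X]) • o - o' i) := by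
        rw [Finset.sum_smul]
        simp_rw [mul_smul, C_smul, smul_sub]
        rw [Finset.sum_sub_distrib, hg', sub_zero]
      rw [e]
      exact Y.sum_mem (fun i _ => Csm Y _ _ (hoY i))
  -- common D
  obtain ⟨D, hD0, hDO⟩ : ∃ D : F[X], D ≠ 0 ∧ ∀ o ∈ O, D • o ∈ Y := by
    let b := Module.finBasis F O
    choose p hp0 hpY using fun j => step1 (b j : W) (b j).2
    refine ⟨∏ j, p j, Finset.prod_ne_zero_iff.2 (fun j _ => hp0 j), ?_⟩
    intro o ho
    have e : o = ∑ j, (b.repr ⟨o, ho⟩ j) • (b j : W) := by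
      have h := congrArg O.subtype (b.sum_repr ⟨o, ho⟩)
      rw [map_sum] at h
      simpa only [map_smul, Submodule.subtype_apply] using h.symm
    rw [e, Finset.smul_sum]
    refine Y.sum_mem (fun j _ => ?_)
    rw [← C_smul, ← mul_smul, mul_comm, mul_smul]
    refine Y.smul_mem _ ?_
    rw [← Finset.prod_erase_mul _ _ (Finset.mem_univ j), mul_smul]
    exact Y.smul_mem _ (hpY j)
  -- step 2
  have step2 : ∀ y ∈ Y, D • y ∈ Y.map τX := by
    intro y hy
    have hle : Y ≤ (Y.map τX).comap (LinearMap.lsmul F[X] W D) := by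
      rw [hY, Submodule.span_le]
      intro f hf
      obtain ⟨z, hz, hzf⟩ := hB hf
      obtain ⟨o, ho, f', hf', hof⟩ := Submodule.mem_sup.1 hz
      rw [SetLike.mem_coe, Submodule.mem_comap, LinearMap.lsmul_apply]
      refine ⟨D • z, ?_, ?_⟩
      · rw [← hof, smul_add]
        exact Y.add_mem (hDO o ho) (Y.smul_mem _ (hΦY f' hf'))
      · rw [τX_apply, hcomm, hzf]
    exact hle hy
  -- step 3
  have step3 : ∀ (i : ℕ) (y : W), y ∈ Y.map (τX ^ i) → D • y ∈ Y.map (τX ^ (i + 1)) := by
    rintro i _ ⟨y, hy, rfl⟩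
    obtain ⟨z, hz, hzy⟩ := step2 y hy
    refine ⟨z, hz, ?_⟩
    rw [pow_succ, Module.End.mul_apply, hzy, map_smul]
  have step3' : ∀ (i k : ℕ) (y : W), y ∈ Y.map (τX ^ i) → D ^ k • y ∈ Y.map (τX ^ (i + k)) := by
    intro i k
    induction k with
    | zero => intro y hy; simpa using hy
    | succ k ih =>
      intro y hy
      rw [pow_succ', mul_smul, ← add_assoc]
      exact step3 _ _ (ih y hy)
  have step4 : ∀ (I : ℕ) (v : W), v ∈ (⨆ i ∈ Finset.range (I + 1), O.map (τ ^ i)) →
      D ^ (I + 1) • v ∈ Y.map (τX ^ I) := by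
    intro I v hv
    induction hv using Submodule.iSup_induction' with
    | zero => simp
    | add a b _ _ ha hb => rw [smul_add]; exact Submodule.add_mem _ ha hb
    | mem i v hv =>
      by_cases hi : i ∈ Finset.range (I + 1)
      · simp only [hi, iSup_pos] at hv
        obtain ⟨o, ho, rfl⟩ := hv
        have hi' : i ≤ I := by simpa [Nat.lt_succ_iff] using hi
        have e : (D ^ (I + 1)) • (τ ^ i) o = D ^ i • (D ^ (I - i) • (D • (τ ^ i) o)) := by
          rw [← mul_smul, ← mul_smul, ← pow_add, ← pow_succ]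
          congr 2
          omega
        rw [e]
        refine Submodule.smul_mem _ _ ?_
        have h1 : D • (τ ^ i) o ∈ Y.map (τX ^ i) := ⟨D • o, hDO o ho, by rw [map_smul, τXpow]⟩
        have h2 := step3' i (I - i) _ h1
        rwa [Nat.add_sub_cancel' hi'] at h2
      · simp only [hi] at hv
        simp at hv
        rw [hv]; simp
  -- common I
  choose J hJ using fun j => hO (w j)
  set I : ℕ := Finset.univ.sup J with hI
  have hwI : ∀ j, D ^ (I + 1) • w j ∈ Y.map (τX ^ I) := by
    intro j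
    apply step4
    have hle : (⨆ i ∈ Finset.range (J j + 1), O.map (τ ^ i)) ≤
        ⨆ i ∈ Finset.range (I + 1), O.map (τ ^ i) := by
      apply biSup_mono
      intro i hi
      have : J j ≤ I := Finset.le_sup (f := J) (Finset.mem_univ j)
      simp only [Finset.mem_range] at hi ⊢
      omega
    exact hle (hJ j)
  let b := Module.finBasis F Φ
  let S : Set W := Set.range (fun k : Fin (finrank F Φ) => (τ ^ I) (b k : W))
  have hspan : Y.map (τX ^ I) ≤ Submodule.span F[X] S := by
    rw [Submodule.map_le_iff_le_comap, hY, Submodule.span_le]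
    intro f hf
    rw [SetLike.mem_coe, Submodule.mem_comap, τXpow]
    have e : f = ∑ j, (b.repr ⟨f, hf⟩ j) • (b j : W) := by
      have h := congrArg Φ.subtype (b.sum_repr ⟨f, hf⟩)
      rw [map_sum] at h
      simpa only [map_smul, Submodule.subtype_apply] using h.symm
    rw [e, map_sum]
    refine Submodule.sum_mem _ (fun k _ => ?_)
    rw [map_smul]
    exact Csm _ _ _ (Submodule.subset_span ⟨k, rfl⟩)
  have hnli : ¬ LinearIndependent F[X] (fun j => D ^ (I + 1) • w j) := by
    intro h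
    classical
    have : Fintype S := Set.fintypeRange _
    have h1 := linearIndependent_le_span' _ h S (by
      rintro _ ⟨j, rfl⟩
      exact hspan (hwI j))
    have h2 : Fintype.card S ≤ finrank F Φ := by
      have := Fintype.card_le_of_surjective
        (Set.rangeFactorization (fun k : Fin (finrank F Φ) => (τ ^ I) (b k : W)))
        Set.rangeFactorization_surjective
      simpa using this
    rw [Cardinal.mk_fintype] at h1
    have h3 : Fintype.card ι ≤ Fintype.card S := by exact_mod_cast h1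
    omega
  rw [Fintype.not_linearIndependent_iff] at hnli
  obtain ⟨g, hg, i0, hi0⟩ := hnli
  refine ⟨fun j => g j * D ^ (I + 1), ?_, ?_⟩
  · intro h
    have := congrFun h i0
    simp only [Pi.zero_apply, mul_eq_zero] at this
    rcases this with h | h
    · exact hi0 h
    · exact hD0 (pow_eq_zero_iff (by omega) |>.1 h)
  · rw [← hg]
    refine Finset.sum_congr rfl (fun j _ => ?_)
    rw [← smul_def, mul_smul]

/-- The rank lemma. -/
theorem rank_lemma {O : Submodule F W} [FiniteDimensional F O] {τ x : Module.End F W} {n : ℕ}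
    (hxτ : ∀ v, x (τ v) = τ (x v))
    (hO : ∀ v : W, ∃ I : ℕ, v ∈ ⨆ i ∈ Finset.range (I + 1), O.map (τ ^ i))
    (hx : WtLe O τ x n) (w : Fin (n + 1) → W) :
    ∃ p : Fin (n + 1) → F[X], p ≠ 0 ∧ ∑ j, aeval x (p j) (w j) = 0 :=
  rank_lemma_fintype hxτ hO hx (by simp) w

end KO
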