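import Mathlib
import Pool.Agent.helper2.KO.Rank

/-!
# The killing lemma (koethe.md, section 4), abstract form

`T : P →ₐ[F] End W` an algebra homomorphism (in a product the LAST factor acts first),
`ζ : P →ₐ[F] K[X]`.
-/

open Polynomial Module

namespace KO

section Deg

variable {F K : Type*} [Field F] [Field K] [Algebra F K]

theorem aeval_deg {a : K[X]} {D : ℕ} (ha : a.natDegree ≤ D) (f : F[X]) {d : ℕ}
    (hf : f.natDegree ≤ d) : (aeval a f).natDegree ≤ d * D := by
  rw [aeval_eq_sum_range' (Nat.lt_succ_of_le hf)]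
  refine natDegree_sum_le_of_forall_le _ _ (fun i hi => ?_)
  have hi' : i ≤ d := by simpa [Nat.lt_succ_iff] using hi
  refine (natDegree_smul_le _ _).trans ((natDegree_pow_le).trans ?_)
  exact Nat.mul_le_mul hi' ha

theorem aeval_coeff {a : K[X]} {D : ℕ} (hD : 1 ≤ D) (ha : a.natDegree ≤ D) (f : F[X]) {d : ℕ}
    (hf : f.natDegree ≤ d) :
    (aeval a f).coeff (d * D) = algebraMap F K (f.coeff d) * (a.coeff D) ^ d := by
  rw [aeval_eq_sum_range' (Nat.lt_succ_of_le hf), finsetSum_coeff,
    Finset.sum_eq_single_of_mem d (by simp)]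
  · rw [coeff_smul, coeff_pow_of_natDegree_le ha, Algebra.smul_def]
  · intro i hi hid
    have hi' : i < d := by
      have : i < d + 1 := by simpa using hi
      omega
    rw [coeff_smul, coeff_eq_zero_of_natDegree_lt (p := a ^ i), smul_zero]
    refine lt_of_le_of_lt (natDegree_pow_le_of_le i ha) ?_
    exact Nat.mul_lt_mul_of_pos_right hi' hD

/-- two elements of the same degree with leading coefficients `c`, `w c` -/
theorem pair_deg {w : K} (hw : ∀ c : F, algebraMap F K c ≠ w) {a b : K[X]} {D : ℕ} (hD : 1 ≤ D)
    (ha : a.natDegree = D) (hb : b.natDegree = D) (hlc : b.coeff D = w * a.coeff D)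
    (f g : F[X]) (hfg : f ≠ 0 ∨ g ≠ 0) :
    (a * aeval a f + b * aeval a g) ≠ 0 ∧
    (a * aeval a f + b * aeval a g).natDegree = (max f.natDegree g.natDegree + 1) * D := by
  set d := max f.natDegree g.natDegree with hd
  have hfd : f.natDegree ≤ d := le_max_left _ _
  have hgd : g.natDegree ≤ d := le_max_right _ _
  have haD : a.coeff D ≠ 0 := by
    rw [← ha]
    have : a ≠ 0 := by
      rintro rfl
      simp at ha
      omega
    simpa using this
  have hc : (a * aeval a f + b * aeval a g).coeff ((d + 1) * D) =
      (algebraMap F K (f.coeff d) + w * algebraMap F K (g.coeff d)) * (a.coeff D) ^ (d + 1) := by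
    rw [add_mul, one_mul, add_comm (d * D) D, coeff_add,
      coeff_mul_add_eq_of_natDegree_le ha.le (aeval_deg ha.le f hfd),
      coeff_mul_add_eq_of_natDegree_le hb.le (aeval_deg ha.le g hgd),
      aeval_coeff hD ha.le f hfd, aeval_coeff hD ha.le g hgd, hlc]
    ring
  have hne : (algebraMap F K (f.coeff d) + w * algebraMap F K (g.coeff d)) ≠ 0 := by
    intro h
    by_cases hg : g.coeff d = 0
    · rw [hg, map_zero, mul_zero, add_zero] at h
      have hf0 : f.coeff d = 0 := by
        have := (algebraMap F K).injective (h.trans (map_zero _).symm)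
        exact this
      rcases le_total f.natDegree g.natDegree with hle | hle
      · have e : d = g.natDegree := by rw [hd, max_eq_right hle]
        have g0 : g = 0 := by
          rw [e] at hg
          simpa using hg
        have f0 : f = 0 := by
          have e2 : f.natDegree = d := by
            rw [e, g0, natDegree_zero]
            rw [g0, natDegree_zero] at hle
            omega
          rw [← e2] at hf0
          simpa using hf0
        rcases hfg with h' | h'
        · exact h' f0
        · exact h' g0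
      · have e : d = f.natDegree := by rw [hd, max_eq_left hle]
        have f0 : f = 0 := by
          rw [e] at hf0
          simpa using hf0
        have g0 : g = 0 := by
          have e2 : g.natDegree = d := by
            rw [e, f0, natDegree_zero]
            rw [f0, natDegree_zero] at hle
            omega
          rw [← e2] at hg
          simpa using hg
        rcases hfg with h' | h'
        · exact h' f0
        · exact h' g0
    · apply hw (-(f.coeff d) / (g.coeff d))
      have hg' : algebraMap F K (g.coeff d) ≠ 0 := by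
        intro h'
        exact hg ((algebraMap F K).injective (h'.trans (map_zero _).symm))
      rw [map_div₀, map_neg, div_eq_iff hg']
      linear_combination -h
  have hcne : (a * aeval a f + b * aeval a g).coeff ((d + 1) * D) ≠ 0 := by
    rw [hc]
    exact mul_ne_zero hne (pow_ne_zero _ haD)
  refine ⟨?_, ?_⟩
  · intro h
    rw [h] at hcne
    simp at hcne
  · refine natDegree_eq_of_le_of_coeff_ne_zero ?_ hcne
    refine natDegree_add_le_of_degree_le ?_ ?_
    · refine natDegree_mul_le.trans ?_
      have := aeval_deg ha.le f hfd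
      rw [ha, add_mul, one_mul]
      omega
    · refine natDegree_mul_le.trans ?_
      have := aeval_deg ha.le g hgd
      rw [hb, add_mul, one_mul]
      omega

/-- the `2D` elements `a^(D+1-j) r^j`, `b a^(D-j) r^j` are independent over `F[a]` -/
theorem indep {w : K} (hw : ∀ c : F, algebraMap F K c ≠ w) {a b r : K[X]} {D : ℕ} (hD : 1 ≤ D)
    (ha : a.natDegree = D) (hb : b.natDegree = D) (hr : r.natDegree = D + 1)
    (hlc : b.coeff D = w * a.coeff D) (f g : Fin D → F[X]) (hfg : ∃ j, f j ≠ 0 ∨ g j ≠ 0) :
    ∑ j : Fin D, (a * aeval a (f j) + b * aeval a (g j)) * (a ^ (D - (j : ℕ)) * r ^ (j : ℕ)) ≠ 0 := by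
  classical
  have ha0 : a ≠ 0 := by
    rintro rfl
    simp at ha
    omega
  have hr0 : r ≠ 0 := by
    rintro rfl
    simp at hr
  obtain ⟨j0, hj0⟩ := hfg
  set G : Fin D → K[X] := fun j =>
    (a * aeval a (f j) + b * aeval a (g j)) * (a ^ (D - (j : ℕ)) * r ^ (j : ℕ)) with hG
  have hzero : ∀ j, ¬ (f j ≠ 0 ∨ g j ≠ 0) → G j = 0 := by
    intro j hj
    rw [not_or, not_not, not_not] at hj
    simp [hG, hj.1, hj.2]
  have hdeg : ∀ j, (f j ≠ 0 ∨ g j ≠ 0) → G j ≠ 0 ∧
      (G j).natDegree = (max (f j).natDegree (g j).natDegree + 1 + D) * D + j := by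
    intro j hj
    obtain ⟨h1, h2⟩ := pair_deg hw hD ha hb hlc (f j) (g j) hj
    have h3 : a ^ (D - (j : ℕ)) * r ^ (j : ℕ) ≠ 0 := mul_ne_zero (pow_ne_zero _ ha0) (pow_ne_zero _ hr0)
    refine ⟨mul_ne_zero h1 h3, ?_⟩
    rw [hG]
    simp only
    rw [natDegree_mul h1 h3, h2, natDegree_mul (pow_ne_zero _ ha0) (pow_ne_zero _ hr0),
      natDegree_pow, natDegree_pow, ha, hr]
    have hjD : (j : ℕ) ≤ D := j.2.le
    obtain ⟨k, hk⟩ := Nat.exists_eq_add_of_le hjD
    rw [show D - (j : ℕ) = k by omega]
    generalize max (f j).natDegree (g j).natDegree = m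
    have e : (k + (j : ℕ)) * D = D * D := by rw [show k + (j : ℕ) = D by omega]
    nlinarith [e]
  have hpair : Set.Pairwise {i | i ∈ (Finset.univ : Finset (Fin D)) ∧ G i ≠ 0} (Function.onFun Ne (degree ∘ G)) := by
    intro i hi j hj hij
    simp only [Finset.mem_univ, true_and, Set.mem_ofPred_eq] at hi hj
    simp only [Function.onFun, Function.comp]
    intro h
    have hi' : f i ≠ 0 ∨ g i ≠ 0 := by
      by_contra h'
      exact hi (hzero i h')
    have hj' : f j ≠ 0 ∨ g j ≠ 0 := by
      by_contra h'
      exact hj (hzero j h')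
    have e := natDegree_eq_of_degree_eq h
    rw [(hdeg i hi').2, (hdeg j hj').2] at e
    apply hij
    have e2 := congrArg (fun t => t % D) e
    simp only [Nat.mul_add_mod_self_right] at e2
    rw [Nat.mod_eq_of_lt i.2, Nat.mod_eq_of_lt j.2] at e2
    exact Fin.ext e2
  have hsum := degree_sum_eq_of_disjoint G Finset.univ hpair
  intro h
  rw [show (∑ j : Fin D, (a * aeval a (f j) + b * aeval a (g j)) * (a ^ (D - (j : ℕ)) * r ^ (j : ℕ)))
    = Finset.univ.sum G from rfl] at h
  rw [h, degree_zero] at hsum
  have h5 : degree (G j0) ≤ ⊥ := by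
    rw [hsum]
    exact Finset.le_sup (f := fun i => degree (G i)) (Finset.mem_univ j0)
  have h6 : degree (G j0) = ⊥ := le_bot_iff.1 h5
  exact (hdeg j0 hj0).1 (degree_eq_bot.1 h6)

end Deg

end KO
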